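import Pool.Agent.J6H49.BC.All

set_option autoImplicit false

/-!
# Finite axiomatizations with short proofs of bounded quantifier complexity of their finite
# consistency statements

We answer the question positively.

**Language, calculus, lengths.** The formulas (`Fml`) are built from `⊥`, `x = y`, the predicate
symbols `Z x` (`x` is zero), `S x y`, `A x y z`, `M x y z` of arithmetic (the function symbols of `Q`
are treated as relation symbols) and further predicate symbols `R i` with four arguments by `→` and
`∀`. Proofs are lists of formulas in a Hilbert calculus (`IsProof`, `LogK`): the axioms are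
`φ → (ψ → φ)`, `(φ → (ψ → χ)) → ((φ → ψ) → (φ → χ))`, `¬¬φ → φ`, `∀ x φ → φ (y)`,
`∀ x (φ → ψ) → (φ → ∀ x ψ)` (`x` not free in `φ`), `x = x`, `x = y → (φ → φ')` (`φ` atomic), and the
rules are modus ponens and generalization. Formulas and proofs are strings over `{0, 1}` (`str`,
`strs`; Polish notation, the variable with the index `i` is the string `1 ⋯ 1 0` with `i` ones), and
`Proves Γ m φ` (`Γ ⊢^m φ`) means that `φ` has a proof from the list `Γ` whose string has at most `m`
symbols.

**Finite consistency statements.** `Numerates P`: the arithmetical formula `P (v₂, v₃, v₄)` is such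
that Robinson arithmetic proves `P (c, m, d)` if `c` is the code of a list `Γ`, `d` is the code of a
formula `φ` and `Γ ⊢^m φ`, and that it proves `¬ P (c, m, d)` otherwise. Then
`Con_Γ (n) = ¬ P (code Γ, n, code ⊥)` (`conAt P Γ n`, `conAtD P Γ n`). The numeral of `n` in the first
sentence is unary and in the second one it is dyadic; in a language without function symbols `φ (n)`
is written by quantifiers (`inst`: let `v₀` be zero, let `v₁` be the successor of `v₀`, let `v₀` be
`v₁`, and so on; `instD`: the same with `2 x + 1` and `2 x + 2`). The codes are also written in these
two ways.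

**Complexity.** `Cx true k φ` (`φ` is `Σ_k`) and `Cx false k φ` (`φ` is `Π_k`): atomic formulas are
`Σ_0` and `Π_0`; `φ → ψ` is `Σ_k` if `φ` is `Π_k` and `ψ` is `Σ_k`, and conversely; `∀ x φ` is `Π_k` if
`φ` is `Π_k`, `k ≥ 1`; `Σ_k` and `Π_k` formulas are `Σ_(k+1)` and `Π_(k+1)`.

**The theorem.** There are formulas `P` as above; for every such `P` the sentences `Con_Γ (n)` are
true in `ℕ` if and only if there is no proof of `⊥` from `Γ` with at most `n` symbols, and there are a
finite set `A` of sentences that contains the axioms of Robinson arithmetic and has no further symbols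
than `R 0, …, R 5`, that is consistent and even true in an expansion of the standard model, a number
`k` and a polynomial `p` such that for all `n` both sentences `Con_A (n)` have proofs from `A` with at
most `p (n)` symbols in which all formulas are `Σ_k` (and contain only the symbols above).

**The proof.** The axioms of `A` say, besides `Q`: every `b` has a `v` beyond it; for all `a`, `b` there
is `c` such that what is beyond `c` is beyond `a` and `b`; if `u` is beyond something then the pairs
`u`, `v` with `v` beyond some `b` have a colour; there are no triangles with three equal colours;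
nothing is less than zero, and if `y < x + 1` then `y < x` or `y = x`; and, by self-reference, `Con_A (y)`
holds if not all colours are less than `y`. (The two remaining symbols compute the code of `A`.)

*Short proofs.* For nodes `u_i` and colours `c_i`, `i < k`, let `S` be the set of the `v` such that the
colour of `u_i`, `v` is `c_i` for all `i`. By induction on `r` we prove for all `u_i`, `c_i`, `i < n - r`,
and `d_j`, `j < r`: if all pairs in `S` have colours in `{d_0, …, d_(r-1)}`, then `S` is bounded. (If not,
take `u` in `S`; the set of the `v` in `S` for which `u`, `v` has the colour `d_j` has only colours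
different from `d_j`, so it is bounded, for all `j`, and the rest of `S` is bounded since the colours of
the pairs `u`, `v` are among the `d_j`.) These are formulas of bounded complexity of length
`O(n²)`, and each step has a proof of polynomial length. For `r = n` and `d_j = j` we get that not all
colours are less than `n`, and hence `Con_A (n)`.

*Consistency.* A proof with less than `m` symbols contains only the variables `v_0, …, v_(m-1)`.
We interpret its formulas in the set of all isomorphism types of `m`-tuples of numbers and nodes which
have heights and are coloured, without triangles of one colour, with `m` colours `0, …, m - 1`, where `∀ x`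
refers to all types that agree off `x`. Since `m` colours suffice to add a node to `m - 1` nodes, the
logical axioms and the axioms of `A` other than the last one are true in this interpretation. The last
axiom is true as well if there is no contradiction of length less than `m`, because all colours are
less than `m`. So there is no contradiction of length `m`.
-/

namespace Pool.Agent.Results.MP_8ec908_lc.ShortBoundedProofs

open Pool.Agent.TH672 (Fm Str digits)
open Pool.Agent.TH636.BC (Fml IsProof strs Proves code con conAt Numerates robinson Cx)

/-- The expansion of the standard model of arithmetic by the relations `R i`. -/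
@[reducible] def expansion (R : ℕ → ℕ → ℕ → ℕ → ℕ → Prop) : Str ℕ where
  M := ℕ
  ne := ⟨0⟩
  zero x := x = 0
  succ x y := y = x + 1
  add x y z := z = x + y
  mul x y z := z = x * y
  op := R

/-- The formula `φ (2 x + 1)` or `φ (2 x + 2)` (if `b` is `true`); the variables `0` and `1` are
used as auxiliary variables. -/
def digitD (x : ℕ) (b : Bool) (φ : Fml) : Fml :=
  if b then
    .all 0 (.imp (.add x x 0) (.all 1 (.imp (.succ 0 1) (.all x (.imp (.succ 1 x) φ)))))
  else .all 0 (.imp (.add x x 0) (.all x (.imp (.succ 0 x) φ)))

/-- The formula `φ (n)` where the dyadic numeral of `n` is substituted for the variable `x`; in a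
language without function symbols this means that the values `0`, `d₁`, `2 d₁ + d₂`, ... are
computed by quantifiers. -/
def instD (x n : ℕ) (φ : Fml) : Fml := .all x (.imp (.zero x) ((digits n).foldr (digitD x) φ))

/-- The formula `Con_Γ (x)` with dyadic numerals, where `x` is the variable `3`. -/
def conD (P : Fml) (Γ : List Fml) : Fml := instD 2 (code Γ) (instD 4 (code [Fm.bot]) P.neg)

/-- The sentence `Con_Γ (n)` with dyadic numerals. -/
def conAtD (P : Fml) (Γ : List Fml) (n : ℕ) : Fml := instD 3 n (conD P Γ)

/-- The formula contains no predicate symbols `R i` with `i ≥ 6`. -/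
def InL : Fml → Prop
  | .op i _ _ _ _ => i < 6
  | .imp φ ψ => InL φ ∧ InL ψ
  | .all _ φ => InL φ
  | _ => True

theorem inL_iff (φ : Fml) : InL φ ↔ J6H49.BC.InL φ := by
  induction φ with
  | imp φ ψ ih1 ih2 => exact and_congr ih1 ih2
  | all x φ ih => exact ih
  | _ => exact Iff.rfl

/-- There are numerations of the provability relation, and for each of them there is a consistent
finite axiomatization `A`, containing the axioms of Robinson arithmetic, such that the sentences
`Con_A (n)` have proofs in `A` of polynomial length in which all formulas are `Σ_k`. -/
theorem result :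
    (∃ P : Fml, Numerates P) ∧
    ∀ P : Fml, Numerates P →
      (∀ (R : ℕ → ℕ → ℕ → ℕ → ℕ → Prop) (Γ : List Fml) (n : ℕ) (v : ℕ → ℕ),
        (Fm.Sat (expansion R) (conAt P Γ n) v ↔ ¬ Proves Γ n .bot) ∧
        (Fm.Sat (expansion R) (conAtD P Γ n) v ↔ ¬ Proves Γ n .bot)) ∧
      ∃ (A : List Fml) (k : ℕ) (p : Polynomial ℕ),
        (∀ φ ∈ robinson, φ ∈ A) ∧ (∀ φ ∈ A, φ.Closed ∧ InL φ) ∧ (∀ m, ¬ Proves A m .bot) ∧
        (∃ R, ∀ φ ∈ A, ∀ v : ℕ → ℕ, Fm.Sat (expansion R) φ v) ∧
        ∀ n : ℕ,
          (∃ π, IsProof A (conAt P A n :: π) ∧ (strs (conAt P A n :: π)).length ≤ p.eval n ∧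
            ∀ φ ∈ conAt P A n :: π, Cx true k φ ∧ InL φ) ∧
          (∃ π, IsProof A (conAtD P A n :: π) ∧ (strs (conAtD P A n :: π)).length ≤ p.eval n ∧
            ∀ φ ∈ conAtD P A n :: π, Cx true k φ ∧ InL φ) := by
  simp only [inL_iff]
  exact J6H49.BC.main_theorem

end Pool.Agent.Results.MP_8ec908_lc.ShortBoundedProofs
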